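import Pool.Agent.Helper74.BS.All

set_option autoImplicit false

/-! MP_26f0da_lc (helper74, helper83, helper73 and the provers of the modules, project BS): deterministic pushdown automata and the Strahler number of the
tree of a run.  Definitions: Pool/Agent/Helper74/BS/Defs.lean (forests, `cn`, forests of runs), Pool/Agent/Helper73/DC/Defs.lean (OTM, DSPACE), Pda.lean (DPDA),
Mda.lean (MPDA), Pool/Agent/Helper83/PT/Turn.lean (turns).  Statements of the modules with proofs in words: Pool/Agent/Helper74/BS/St.lean (and the files
St of the projects PT and DC); assembly: Pool/Agent/Helper74/BS/All.lean. -/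

namespace Pool.Agent.Results.MP_26f0da_lc.BoundedStrahler

open Pool.Agent.Helper73.DC Pool.Agent.Helper74.BS
open Pool.Agent.Helper83.PT (AccTurns DAccTurns)

/-- Let `M` be a deterministic pushdown automaton, one-way or two-way with several heads and without a time bound, `T w f` the relation `f is the forest of an
accepting run of M on w`, `L` its language and `A t` the set of the words accepted with at most `t` turns.
(1) `L` consists of the words which have a forest.
(2) For all constants c and R the set of the words accepted by a run whose forest has rank at most R, with K = (log |w|)^c + 2 (that is `cn K (R + 1) f = 0`: there is no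
subtree of rank R + 1, where a tree has rank at least r + 1 if it contains K pairwise disjoint subtrees of rank at least r), is in deterministic logarithmic space.
(3) A word accepted with at most `t` turns has a forest with `cn K 1 f ≤ t` for all K ≥ 2 (so at most polylogarithmically many turns give rank at most 1). -/
theorem result {α : Type} [Fintype α] (T : List α → Fo → Prop) (L : Set (List α)) (A : ℕ → Set (List α))
    (hT : (∃ M : DPDA α, T = DTree M ∧ L = M.lang ∧ A = fun t => {w | DAccTurns M w t}) ∨
      (∃ M : MPDA α, T = MTree M ∧ L = M.lang ∧ A = fun t => {w | AccTurns M w t})) :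
    (∀ w : List α, w ∈ L ↔ ∃ f, T w f) ∧
    (∀ c R : ℕ, {w : List α | ∃ f, T w f ∧ cn (Nat.log 2 w.length ^ c + 2) (R + 1) f = 0} ∈ DSPACE (α := α) (fun n => Nat.log 2 n)) ∧
    (∀ (t : ℕ) (w : List α), w ∈ A t → ∃ f, T w f ∧ ∀ K, 2 ≤ K → cn K 1 f ≤ t) := by
  rcases hT with ⟨M, rfl, rfl, rfl⟩ | ⟨M, rfl, rfl, rfl⟩
  · refine ⟨tLG.1 M, fun c R => (tDT M c).2 R, ?_⟩
    intro t w hw
    obtain ⟨F, hF, hF1⟩ := tTU (Pool.Agent.Helper83.PT.mpd M) w t
      ((Pool.Agent.Helper83.PT.N24.acc_iff Pool.Agent.Helper83.PT.tDP1 Pool.Agent.Helper83.PT.tDP2 M w t).2 hw)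
    obtain ⟨f, hf, hle⟩ := tD1 M w F hF
    exact ⟨f, hf, fun K hK => (hle K 1).trans (hF1 K hK)⟩
  · exact ⟨tLG.2 M, fun c R => (tMT M c).2 R, fun t w hw => tTU M w t hw⟩

end Pool.Agent.Results.MP_26f0da_lc.BoundedStrahler
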