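import Pool.Agent.Helper73.DC.Final

set_option autoImplicit false

/-! MP_26f0da_lc (helper73, project DC): deterministic context-free languages and LogDCFL are in DSPACE((log n)^2/log log n).
Definitions: Pool/Agent/Helper73/DC/Defs.lean (OTM, DSPACE), Pda.lean (DPDA), Mda.lean (MPDA).  Statements of the modules with proofs in
words: St1.lean .. St8.lean; assembly: Final.lean. -/

namespace Pool.Agent.Results.MP_26f0da_lc.DeterministicPushdown

open Pool.Agent.Helper73.DC

/-- Every deterministic context-free language, and more generally every language accepted in polynomial time by a deterministic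
two-way multihead pushdown automaton (LogDCFL), is in DSPACE((log n)^2/log log n). -/
theorem result {α : Type} [Fintype α] (L : Set (List α))
    (hL : (∃ M : DPDA α, M.lang = L) ∨
      (∃ (M : MPDA α) (e : ℕ), M.lang = L ∧ ∀ w ∈ L, M.AccIn w ((w.length + 2) ^ e))) :
    L ∈ DSPACE (α := α) (fun n => Nat.log 2 n ^ 2 / (Nat.log 2 (Nat.log 2 n) + 1)) := by
  rcases hL with ⟨M, rfl⟩ | ⟨M, e, rfl, h⟩
  · exact dcfl_mem M
  · exact logdcfl_mem M e h

end Pool.Agent.Results.MP_26f0da_lc.DeterministicPushdown
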