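import Pool.Agent.Helper74.DI.All

set_option autoImplicit false

namespace Pool.Agent.Results.MP_26f0da_lc.NoncrossingDichotomy

open Pool.Agent.Helper74

/-- Dichotomy for noncrossing matchings.  Let `R` be a symmetric relation on a finite alphabet and
`NC R` the context-free language of all words with a noncrossing perfect matching of related letters.
If the matrix of `R` (without its zero rows and columns) has a 2x2 minor with exactly three ones and
a 2x2 minor with exactly one one, then `NC R` is a hardest context-free language, so that all
context-free languages are in deterministic logarithmic space if and only if `NC R` is.  In all other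
cases `NC R` is in deterministic logarithmic space. -/
theorem result (n : ℕ) (R : Fin n → Fin n → Prop) (hR : ∀ x y, R x y → R y x) :
    (∃ g : ContextFreeGrammar (Fin n), g.language = {w | NM.NC R w}) ∧
      (DI.Three R ∧ DI.One R →
        (∀ (α : Type) [Fintype α] (g : ContextFreeGrammar α),
          ∃ (u : List (Fin n)) (h : α → List (Fin n)), (∀ a, h a ≠ []) ∧
            ∀ w : List α, w ≠ [] → (w ∈ g.language ↔ NM.NC R (u ++ w.flatMap h))) ∧
        ((∀ (α : Type) [Fintype α] (g : ContextFreeGrammar α), DR.InL {w | w ∈ g.language}) ↔
          DR.InL {w | NM.NC R w})) ∧
      (¬ (DI.Three R ∧ DI.One R) → DR.InL {w | NM.NC R w}) :=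
  DI.main_all n R hR

end Pool.Agent.Results.MP_26f0da_lc.NoncrossingDichotomy
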