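import Pool.Agent.Helper74.RN.All

set_option autoImplicit false

namespace Pool.Agent.Results.MP_26f0da_lc.RNAFolding

open Pool.Agent.Helper74

/-- Dichotomy for RNA folding (maximum noncrossing matchings).  Let `Γ` be a simple graph on a finite
alphabet (the pairs which may be formed) and `RN.TH Γ.Adj` the language of all words of letters and
signs such that the letters have a noncrossing matching of adjacent letters in which at most as many
letters are not matched as there are signs.  If the non-isolated vertices of `Γ` induce a complete
multipartite graph, the language is in deterministic logarithmic space.  Otherwise every context-free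
language is reduced to it by `w ↦ u h(w)`, and all context-free languages are in deterministic
logarithmic space if and only if it is.  (The upper bound holds for every relation.) -/
theorem result :
    ((∀ (α : Type) [Fintype α] (g : ContextFreeGrammar α), DR.InL {w | w ∈ g.language}) →
      ∀ (n : ℕ) (R : Fin n → Fin n → Prop), DR.InL (RN.TH R)) ∧
    ∀ (n : ℕ) (Γ : SimpleGraph (Fin n)),
      (RN.CM Γ → DR.InL (RN.TH Γ.Adj)) ∧
      (¬ RN.CM Γ →
        (∀ (α : Type) [Fintype α] (g : ContextFreeGrammar α),
          ∃ (u : List (Option (Fin n))) (h : α → List (Option (Fin n))), (∀ a, h a ≠ []) ∧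
            ∀ w : List α, w ≠ [] → (w ∈ g.language ↔ u ++ w.flatMap h ∈ RN.TH Γ.Adj)) ∧
        ((∀ (α : Type) [Fintype α] (g : ContextFreeGrammar α), DR.InL {w | w ∈ g.language}) ↔
          DR.InL (RN.TH Γ.Adj))) :=
  RN.main_all

end Pool.Agent.Results.MP_26f0da_lc.RNAFolding
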